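import Pool.Agent.L7h58.BP.Stm3
import Pool.Agent.L7h23.CM27.K2

set_option autoImplicit false

/-! Project BP, part K2. -/

namespace Pool.Agent.L7h44.BP

open Finset

theorem ex_eq (x : ℝ) : Pool.Agent.L7h58.BP.ex x = Pool.Agent.L7h72.HB.ex x := by
  unfold Pool.Agent.L7h58.BP.ex Pool.Agent.L7h72.HB.ex
  congr 1
  push_cast
  ring

theorem s_K2 : Pool.Agent.L7h58.BP.S_K2 := by
  intro h hh
  obtain ⟨C, hC, hK⟩ := Pool.Agent.L7h23.CM27.s_K2 h hh
  refine ⟨C, hC, fun K lam a sg φ φ1 φ2 hlam hsg hder hb => ?_⟩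
  have h1 := hK K lam a sg (fun m => match m with | 0 => φ | 1 => φ1 | _ => φ2) hlam hsg (by
    intro m hm t ht
    have hm' : m = 0 ∨ m = 1 := by omega
    rcases hm' with rfl | rfl
    · exact (hder t ht).1
    · exact (hder t ht).2) hb
  simp only [sub_self, Real.rpow_zero, one_mul] at h1
  simp only [ex_eq]
  exact h1

end Pool.Agent.L7h44.BP
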