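import Pool.Agent.L7h58.BP.Stm3

set_option autoImplicit false

/-! Project BP, part TYI. -/

namespace Pool.Agent.L7h44.BP

open Finset
open Pool.Agent.L7h58.BP (ex S_K2 S_TYI)

/-- the second derivative test on an interval of integers -/
theorem k2Ioc (hK : S_K2) {r : ℝ} (hr : 1 ≤ r) : ∃ C : ℝ, 0 < C ∧
    ∀ (A B : ℕ) (lam : ℝ) (φ φ1 φ2 : ℝ → ℝ), 0 < lam → A < B →
    (∀ t : ℝ, A + 1 ≤ t → t ≤ B → HasDerivAt φ (φ1 t) t ∧ HasDerivAt φ1 (φ2 t) t ∧ lam ≤ φ2 t ∧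
      φ2 t ≤ r * lam) →
    ‖∑ k ∈ Ioc A B, ex (φ k)‖ ≤ C * (((B : ℝ) - A) * √lam + (√lam)⁻¹) := by
  obtain ⟨C, hC, h⟩ := hK r hr
  refine ⟨C, hC, fun A B lam φ φ1 φ2 hlam hAB hd => ?_⟩
  obtain ⟨K, rfl⟩ : ∃ K, B = A + K + 1 := ⟨B - A - 1, by omega⟩
  have h1 := h K lam (A + 1) 1 φ φ1 φ2 hlam (by simp)
    (fun t ht => by
      have h2 := hd t ht.1 (by have := ht.2; push_cast at this ⊢; linarith)
      exact ⟨h2.1, h2.2.1⟩)
    (fun t ht => by
      have h2 := hd t ht.1 (by have := ht.2; push_cast at this ⊢; linarith)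
      rw [one_mul]
      exact ⟨h2.2.2.1, h2.2.2.2⟩)
  rw [← Real.sqrt_eq_rpow, Real.rpow_neg hlam.le, ← Real.sqrt_eq_rpow] at h1
  have h3 : ∑ k ∈ Ioc A (A + K + 1), ex (φ k) = ∑ k ∈ range (K + 1), ex (φ ((A : ℝ) + 1 + k)) := by
    have h4 : Ioc A (A + K + 1) = (range (K + 1)).image fun k => A + 1 + k := by
      ext x
      simp only [Finset.mem_Ioc, Finset.mem_image, Finset.mem_range]
      constructor
      · rintro ⟨h5, h6⟩
        exact ⟨x - A - 1, by omega, by omega⟩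
      · rintro ⟨k, h5, rfl⟩
        omega
    rw [h4, Finset.sum_image (fun a _ b _ hab => by simpa using hab)]
    refine Finset.sum_congr rfl fun k _ => ?_
    push_cast
    rfl
  rw [h3]
  refine h1.trans (le_of_eq ?_)
  push_cast
  ring

/-- the two derivatives of `c / (d t - 1)` -/
theorem der {c d t : ℝ} (h : 0 < d * t - 1) :
    HasDerivAt (fun t : ℝ => c / (d * t - 1)) (-(c * d) / (d * t - 1) ^ 2) t ∧
    HasDerivAt (fun t : ℝ => -(c * d) / (d * t - 1) ^ 2) (2 * c * d ^ 2 / (d * t - 1) ^ 3) t := by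
  have h0 : HasDerivAt (fun t : ℝ => d * t - 1) d t := by
    have := ((hasDerivAt_id t).const_mul d).sub_const 1
    simpa using this
  have h1 : (d * t - 1) ≠ 0 := h.ne'
  constructor
  · have h2 := (hasDerivAt_const t c).div h0 h1
    refine h2.congr_deriv ?_
    field_simp
    ring
  · have h2 := (hasDerivAt_const t (-(c * d))).div (h0.pow 2) (pow_ne_zero 2 h1)
    refine h2.congr_deriv ?_
    simp only [Pi.pow_apply]
    field_simp
    ring

theorem s_TYI (hK : S_K2) : S_TYI := by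
  obtain ⟨C, hC, hk⟩ := k2Ioc hK (r := 8) (by norm_num)
  refine ⟨9 * C, by positivity, fun L n h d a b hL hn1 hn2 hh hd hdL ha hb => ?_⟩
  rcases Nat.lt_or_ge a b with hab | hab
  swap
  · rw [Finset.Ioc_eq_empty (by omega), Finset.sum_empty, norm_zero]
    positivity
  have hLR : (1 : ℝ) ≤ L := by exact_mod_cast hL
  have hhR : (1 : ℝ) ≤ h := by exact_mod_cast hh
  have hdR : (1 : ℝ) ≤ d := by exact_mod_cast hd
  have hn1R : (L : ℝ) ^ 2 ≤ 16 * n := by exact_mod_cast hn1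
  have hn2R : (n : ℝ) ≤ (L : ℝ) ^ 2 := by exact_mod_cast hn2
  have haR : (L : ℝ) + 1 ≤ d * (a + 1) := by exact_mod_cast ha
  have hbR : (d : ℝ) * b ≤ 2 * L := by exact_mod_cast hb
  have hnp : (0 : ℝ) < n := by nlinarith
  have hdLR : (d : ℝ) ≤ L := by exact_mod_cast hdL
  set lam : ℝ := h * n * d ^ 2 / (4 * L ^ 3) with hlam
  have hlam0 : 0 < lam := by positivity
  have h1 := hk a b lam (fun t => (h * n : ℝ) / (d * t - 1)) _ _ hlam0 hab (fun t ht1 ht2 => by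
    have h2 : (L : ℝ) ≤ d * t - 1 := by
      have h3 : (d : ℝ) * (a + 1) ≤ d * t := mul_le_mul_of_nonneg_left ht1 (by linarith)
      linarith
    have h3 : (d : ℝ) * t - 1 ≤ 2 * L := by
      have h3 : (d : ℝ) * t ≤ d * b := mul_le_mul_of_nonneg_left ht2 (by linarith)
      linarith
    obtain ⟨h4, h5⟩ := der (c := h * n) (d := d) (t := t) (by linarith)
    refine ⟨h4, h5, ?_, ?_⟩
    · rw [hlam, div_le_div_iff₀ (by positivity) (pow_pos (by linarith) 3)]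
      have h6 : ((d : ℝ) * t - 1) ^ 3 ≤ (2 * L) ^ 3 := pow_le_pow_left₀ (by linarith) h3 3
      have h7 : (0 : ℝ) ≤ h * n * d ^ 2 := by positivity
      nlinarith [mul_le_mul_of_nonneg_left h6 h7]
    · rw [hlam, div_le_iff₀ (pow_pos (by linarith) 3)]
      have h6 : (L : ℝ) ^ 3 ≤ ((d : ℝ) * t - 1) ^ 3 := pow_le_pow_left₀ (by linarith) h2 3
      have h7 : (8 : ℝ) * (h * n * d ^ 2 / (4 * L ^ 3)) * ((d : ℝ) * t - 1) ^ 3 =
        2 * (h * n) * d ^ 2 * (((d : ℝ) * t - 1) ^ 3 / L ^ 3) := by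
        field_simp
        ring
      rw [h7]
      have h8 : 1 ≤ ((d : ℝ) * t - 1) ^ 3 / L ^ 3 := (one_le_div (by positivity)).2 h6
      have h9 : (0 : ℝ) ≤ 2 * (h * n) * d ^ 2 := by positivity
      nlinarith [mul_le_mul_of_nonneg_left h8 h9])
  refine h1.trans ?_
  have hhL : (0 : ℝ) ≤ h * L := by positivity
  have hab' : (0 : ℝ) ≤ (b : ℝ) - a := by
    have : (a : ℝ) ≤ b := by exact_mod_cast hab.le
    linarith
  have h2 : ((b : ℝ) - a) * √lam ≤ √(h * L) := by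
    rw [show ((b : ℝ) - a) * √lam = √(((b : ℝ) - a) ^ 2 * lam) by
      rw [Real.sqrt_mul (by positivity), Real.sqrt_sq hab']]
    apply Real.sqrt_le_sqrt
    have h3 : ((b : ℝ) - a) * d ≤ 2 * L := by nlinarith
    have h4 : (((b : ℝ) - a) * d) ^ 2 ≤ (2 * L) ^ 2 := pow_le_pow_left₀ (by positivity) h3 2
    rw [hlam, ← mul_div_assoc, div_le_iff₀ (by positivity)]
    calc ((b : ℝ) - a) ^ 2 * ((h : ℝ) * n * (d : ℝ) ^ 2) =
        (h : ℝ) * n * (((b : ℝ) - a) * d) ^ 2 := by ring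
      _ ≤ (h : ℝ) * (L : ℝ) ^ 2 * (2 * (L : ℝ)) ^ 2 := by gcongr
      _ = (h : ℝ) * L * (4 * (L : ℝ) ^ 3) := by ring
  have h3 : (√lam)⁻¹ ≤ 8 * √(h * L) := by
    rw [show (8 : ℝ) * √(h * L) = √(8 ^ 2 * (h * L)) by
      rw [Real.sqrt_mul (x := 8 ^ 2) (by positivity), Real.sqrt_sq (by norm_num)], ← Real.sqrt_inv]
    apply Real.sqrt_le_sqrt
    rw [inv_le_comm₀ hlam0 (by positivity), hlam, ← one_div,
      div_le_div_iff₀ (by positivity) (by positivity)]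
    have h4 : (1 : ℝ) ≤ d ^ 2 := one_le_pow₀ hdR
    have h5 : (1 : ℝ) ≤ h * h := by nlinarith
    calc 1 * (4 * (L : ℝ) ^ 3) = 4 * (L : ℝ) * ((L : ℝ) ^ 2 * 1 * 1) := by ring
      _ ≤ 4 * (L : ℝ) * (16 * n * ((h : ℝ) * h) * (d : ℝ) ^ 2) := by gcongr
      _ = (h : ℝ) * n * (d : ℝ) ^ 2 * (8 ^ 2 * ((h : ℝ) * L)) := by ring
  calc C * (((b : ℝ) - a) * √lam + (√lam)⁻¹) ≤ C * (√(h * L) + 8 * √(h * L)) := by gcongr
    _ = 9 * C * √(h * L) := by ring

end Pool.Agent.L7h44.BP
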