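import Pool.Agent.L7h44.BP.K2
import Pool.Agent.L7h44.BP.TyI

set_option autoImplicit false

/-! Project BP, part TYII. -/

namespace Pool.Agent.L7h44.BP

open Finset
open Pool.Agent.L7h58.BP (ex S_K2 S_TYII)

theorem norm_ex (x : ℝ) : ‖ex x‖ = 1 := by
  rw [ex_eq]
  exact Pool.Agent.H469R2.NK.norm_e x

theorem ex_mul_conj (x y : ℝ) : ex x * (starRingEnd ℂ) (ex y) = ex (x - y) := by
  rw [ex_eq, ex_eq, ex_eq, sub_eq_add_neg]
  have h1 : (starRingEnd ℂ) (Pool.Agent.L7h72.HB.ex y) = Pool.Agent.L7h72.HB.ex (-y) :=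
    Pool.Agent.H469R2.NK.conj_e y
  rw [h1]
  exact (Pool.Agent.H469R2.NK.e_add x (-y)).symm

theorem norm_sum_swap {ι : Type} (s : Finset ι) (f g : ι → ℝ) :
    ‖∑ k ∈ s, ex (f k - g k)‖ = ‖∑ k ∈ s, ex (g k - f k)‖ := by
  rw [← RCLike.norm_conj (∑ k ∈ s, ex (f k - g k)), map_sum]
  congr 1
  refine Finset.sum_congr rfl fun k _ => ?_
  rw [← ex_mul_conj, map_mul, Complex.conj_conj, mul_comm, ex_mul_conj]

/-- the mean value theorem for `x² / (x t - 1)³` -/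
theorem F_diff {t s s' L M : ℝ} (hL : 1 ≤ L) (hM : 0 < M) (hs : M ≤ s) (hss : s < s')
    (hs' : s' ≤ 2 * M) (ht : 0 < t) (h1 : L ≤ s * t - 1) (h2 : s' * t - 1 ≤ 2 * L) :
    (s' - s) * (M / (8 * L ^ 3)) ≤ s ^ 2 / (s * t - 1) ^ 3 - s' ^ 2 / (s' * t - 1) ^ 3 ∧
    s ^ 2 / (s * t - 1) ^ 3 - s' ^ 2 / (s' * t - 1) ^ 3 ≤ (s' - s) * (8 * M / L ^ 3) := by
  have hpos : ∀ x ∈ Set.Icc s s', 0 < x * t - 1 := fun x hx => by
    have : s * t ≤ x * t := mul_le_mul_of_nonneg_right hx.1 ht.le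
    linarith
  have hder : ∀ x ∈ Set.Icc s s', HasDerivAt (fun x : ℝ => x ^ 2 / (x * t - 1) ^ 3)
      (-(x * (x * t + 2)) / (x * t - 1) ^ 4) x := by
    intro x hx
    have h3 := hpos x hx
    have h4 : HasDerivAt (fun x : ℝ => x * t - 1) t x := by
      have := ((hasDerivAt_id x).mul_const t).sub_const 1
      simpa using this
    have h5 := ((hasDerivAt_id x).pow 2).div (h4.pow 3) (pow_ne_zero 3 h3.ne')
    refine h5.congr_deriv ?_
    simp only [Pi.pow_apply, id_eq]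
    have h6 : x * t - 1 ≠ 0 := h3.ne'
    field_simp
    ring
  obtain ⟨c, hc, hc2⟩ := exists_hasDerivAt_eq_slope (fun x : ℝ => x ^ 2 / (x * t - 1) ^ 3)
    (fun x => -(x * (x * t + 2)) / (x * t - 1) ^ 4) hss
    (fun x hx => (hder x hx).continuousAt.continuousWithinAt)
    (fun x hx => hder x ⟨hx.1.le, hx.2.le⟩)
  have hd : 0 < s' - s := by linarith
  rw [eq_div_iff hd.ne'] at hc2
  have h3 : L ≤ c * t - 1 := by
    have : s * t ≤ c * t := mul_le_mul_of_nonneg_right hc.1.le ht.le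
    linarith
  have h4 : c * t - 1 ≤ 2 * L := by
    have : c * t ≤ s' * t := mul_le_mul_of_nonneg_right hc.2.le ht.le
    linarith
  set y := c * t - 1 with hy
  have hy0 : 0 < y := by linarith
  have h5 : c * t + 2 = y + 3 := by rw [hy]; ring
  rw [h5] at hc2
  have h6 : s ^ 2 / (s * t - 1) ^ 3 - s' ^ 2 / (s' * t - 1) ^ 3 =
      (s' - s) * (c * (y + 3) / y ^ 4) := by
    have : -(c * (y + 3)) / y ^ 4 = -(c * (y + 3) / y ^ 4) := by ring
    rw [this] at hc2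
    linarith
  rw [h6]
  have hc0 : M ≤ c := hs.trans hc.1.le
  have hc1 : c ≤ 2 * M := hc.2.le.trans hs'
  constructor
  · refine mul_le_mul_of_nonneg_left ?_ hd.le
    rw [div_le_div_iff₀ (by positivity) (by positivity)]
    have h7 : y ^ 3 ≤ (2 * L) ^ 3 := pow_le_pow_left₀ hy0.le h4 3
    have h8 : y * y ^ 3 ≤ (y + 3) * (2 * L) ^ 3 :=
      mul_le_mul (by linarith) h7 (by positivity) (by positivity)
    have h9 : M * (y * y ^ 3) ≤ c * ((y + 3) * (2 * L) ^ 3) :=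
      mul_le_mul hc0 h8 (by positivity) (by linarith)
    calc M * y ^ 4 = M * (y * y ^ 3) := by ring
      _ ≤ c * ((y + 3) * (2 * L) ^ 3) := h9
      _ = c * (y + 3) * (8 * L ^ 3) := by ring
  · refine mul_le_mul_of_nonneg_left ?_ hd.le
    rw [div_le_div_iff₀ (by positivity) (by positivity)]
    have h7 : L ^ 3 ≤ y ^ 3 := pow_le_pow_left₀ (by linarith) h3 3
    calc c * (y + 3) * L ^ 3 ≤ (2 * M) * (4 * y) * y ^ 3 := by
          gcongr
          linarith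
      _ = 8 * M * y ^ 4 := by ring

/-- the condition on the pairs -/
def PP (L m k : ℕ) : Prop := L < m * k ∧ m * k ≤ 2 * L

instance (L m k : ℕ) : Decidable (PP L m k) := inferInstanceAs (Decidable (_ ∧ _))

theorem pair (hK : S_K2) : ∃ C : ℝ, 0 < C ∧ ∀ L n h M K Q m m' : ℕ, 1 ≤ L → L ^ 2 ≤ 16 * n →
    n ≤ L ^ 2 → 1 ≤ h → 1 ≤ M → 1 ≤ K → 1 ≤ Q → M * K ≤ 2 * L → L < 4 * (M * K) →
    M < m → m < m' → m' ≤ 2 * M → m' < m + Q →
    ‖∑ k ∈ (Ioc K (2 * K)).filter (fun k => PP L m k ∧ PP L m' k),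
      ex ((h * n : ℝ) / ((m : ℝ) * k - 1) - (h * n : ℝ) / ((m' : ℝ) * k - 1))‖ ≤
      C * √(h * Q * K) := by
  obtain ⟨C, hC, hk⟩ := k2Ioc hK (r := 64) (by norm_num)
  refine ⟨17 * C, by positivity, ?_⟩
  intro L n h M K Q m m' hL hn1 hn2 hh hM hK1 hQ hMK hMK2 hm hmm hm' hmQ
  have hset : (Ioc K (2 * K)).filter (fun k => PP L m k ∧ PP L m' k) =
      Ioc (max K (L / m)) (min (2 * K) (2 * L / m')) := by
    ext k
    rw [Finset.mem_filter, Finset.mem_Ioc, Finset.mem_Ioc]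
    simp only [PP, max_lt_iff, le_min_iff,
      Nat.div_lt_iff_lt_mul (show 0 < m by omega), Nat.le_div_iff_mul_le (show 0 < m' by omega)]
    have h1 : m * k ≤ m' * k := Nat.mul_le_mul_right _ hmm.le
    rw [Nat.mul_comm k m, Nat.mul_comm k m']
    constructor
    · rintro ⟨⟨h2, h3⟩, ⟨h4, h5⟩, h6, h7⟩
      exact ⟨⟨h2, h4⟩, h3, h7⟩
    · rintro ⟨⟨h2, h4⟩, h3, h7⟩
      exact ⟨⟨h2, h3⟩, ⟨h4, by omega⟩, by omega, h7⟩
  rw [hset]
  set A := max K (L / m) with hA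
  set B := min (2 * K) (2 * L / m') with hB
  rcases Nat.lt_or_ge A B with hab | hab
  swap
  · rw [Finset.Ioc_eq_empty (by omega), Finset.sum_empty, norm_zero]
    positivity
  have hKA : K ≤ A := le_max_left _ _
  have hBK : B ≤ 2 * K := min_le_left _ _
  have hLA : L + 1 ≤ m * (A + 1) := by
    have h1 : L / m < A + 1 := Nat.lt_succ_of_le (le_max_right _ _)
    rw [Nat.div_lt_iff_lt_mul (by omega)] at h1
    rw [Nat.mul_comm]
    exact h1
  have hBL : m' * B ≤ 2 * L := by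
    have h1 : B ≤ 2 * L / m' := min_le_right _ _
    rw [Nat.le_div_iff_mul_le (by omega)] at h1
    rw [Nat.mul_comm]
    exact h1
  have hLR : (1 : ℝ) ≤ L := by exact_mod_cast hL
  have hhR : (1 : ℝ) ≤ h := by exact_mod_cast hh
  have hMR : (1 : ℝ) ≤ M := by exact_mod_cast hM
  have hKR : (1 : ℝ) ≤ K := by exact_mod_cast hK1
  have hQR : (1 : ℝ) ≤ Q := by exact_mod_cast hQ
  have hn1R : (L : ℝ) ^ 2 ≤ 16 * n := by exact_mod_cast hn1
  have hn2R : (n : ℝ) ≤ (L : ℝ) ^ 2 := by exact_mod_cast hn2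
  have hMKR : (M : ℝ) * K ≤ 2 * L := by exact_mod_cast hMK
  have hMK2R : (L : ℝ) ≤ 4 * (M * K) := by exact_mod_cast hMK2.le
  have hmR : (M : ℝ) ≤ m := by exact_mod_cast hm.le
  have hmmR : (m : ℝ) + 1 ≤ m' := by exact_mod_cast hmm
  have hm'R : (m' : ℝ) ≤ 2 * M := by exact_mod_cast hm'
  have hmQR : (m' : ℝ) - m ≤ Q := by
    have : (m' : ℝ) < m + Q := by exact_mod_cast hmQ
    linarith
  have hLAR : (L : ℝ) + 1 ≤ m * (A + 1) := by exact_mod_cast hLA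
  have hBLR : (m' : ℝ) * B ≤ 2 * L := by exact_mod_cast hBL
  have hnp : (0 : ℝ) < n := by nlinarith
  set D : ℝ := (m' : ℝ) - m with hD
  have hD1 : 1 ≤ D := by rw [hD]; linarith
  set lam : ℝ := h * n * D * M / (4 * L ^ 3) with hlam
  have hlam0 : 0 < lam := by positivity
  have h1 := hk A B lam (fun t => (h * n : ℝ) / (m * t - 1) - (h * n : ℝ) / (m' * t - 1))
    _ _ hlam0 hab (fun t ht1 ht2 => by
      have ht0 : 0 < t := by
        have : (0 : ℝ) ≤ A := Nat.cast_nonneg _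
        linarith
      have h2 : (L : ℝ) ≤ m * t - 1 := by
        have h3 : (m : ℝ) * (A + 1) ≤ m * t := mul_le_mul_of_nonneg_left ht1 (by linarith)
        linarith
      have h3 : (m' : ℝ) * t - 1 ≤ 2 * L := by
        have h3 : (m' : ℝ) * t ≤ m' * B := mul_le_mul_of_nonneg_left ht2 (by linarith)
        linarith
      have h2' : (L : ℝ) ≤ m' * t - 1 := by
        have h4 : (m : ℝ) * t ≤ m' * t := mul_le_mul_of_nonneg_right (by linarith) ht0.le
        linarith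
      obtain ⟨h4, h5⟩ := der (c := h * n) (d := m) (t := t) (by linarith)
      obtain ⟨h6, h7⟩ := der (c := h * n) (d := m') (t := t) (by linarith)
      obtain ⟨h8, h9⟩ := F_diff (t := t) (s := m) (s' := m') (L := L) (M := M) hLR (by linarith) hmR
        (by linarith) hm'R ht0 h2 h3
      have h10 : 2 * (h * n : ℝ) * (m : ℝ) ^ 2 / (m * t - 1) ^ 3 -
          2 * (h * n : ℝ) * (m' : ℝ) ^ 2 / (m' * t - 1) ^ 3 =
          2 * (h * n) * ((m : ℝ) ^ 2 / (m * t - 1) ^ 3 - (m' : ℝ) ^ 2 / (m' * t - 1) ^ 3) := by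
        ring
      have h11 : (0 : ℝ) ≤ 2 * (h * n) := by positivity
      refine ⟨h4.sub h6, h5.sub h7, ?_, ?_⟩
      · rw [h10]
        refine le_trans (le_of_eq ?_) (mul_le_mul_of_nonneg_left h8 h11)
        rw [hlam, hD]
        field_simp
        ring
      · rw [h10]
        refine le_trans (mul_le_mul_of_nonneg_left h9 h11) (le_of_eq ?_)
        rw [hlam, hD]
        field_simp
        ring)
  refine h1.trans ?_
  have hE : (0 : ℝ) ≤ h * Q * K := by positivity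
  have hab' : (0 : ℝ) ≤ (B : ℝ) - A := by
    have : (A : ℝ) ≤ B := by exact_mod_cast hab.le
    linarith
  have habK : (B : ℝ) - A ≤ K := by
    have h2 : (B : ℝ) ≤ 2 * K := by exact_mod_cast hBK
    have h3 : (K : ℝ) ≤ A := by exact_mod_cast hKA
    linarith
  have h2 : ((B : ℝ) - A) * √lam ≤ √(h * Q * K) := by
    refine (mul_le_mul_of_nonneg_right habK (Real.sqrt_nonneg _)).trans ?_
    rw [show (K : ℝ) * √lam = √((K : ℝ) ^ 2 * lam) by
      rw [Real.sqrt_mul (by positivity), Real.sqrt_sq (by positivity)]]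
    apply Real.sqrt_le_sqrt
    rw [hlam, ← mul_div_assoc, div_le_iff₀ (by positivity)]
    calc (K : ℝ) ^ 2 * ((h : ℝ) * n * D * M) = (h : ℝ) * K * n * D * ((M : ℝ) * K) := by ring
      _ ≤ (h : ℝ) * K * (L : ℝ) ^ 2 * Q * (2 * L) := by gcongr
      _ ≤ (h : ℝ) * Q * K * (4 * (L : ℝ) ^ 3) := by
        have : (0 : ℝ) ≤ (h : ℝ) * Q * K * (L : ℝ) ^ 3 := by positivity
        nlinarith
  have h3 : (√lam)⁻¹ ≤ 16 * √(h * Q * K) := by
    rw [show (16 : ℝ) * √(h * Q * K) = √(16 ^ 2 * (h * Q * K)) by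
      rw [Real.sqrt_mul (x := 16 ^ 2) (by positivity), Real.sqrt_sq (by norm_num)],
      ← Real.sqrt_inv]
    apply Real.sqrt_le_sqrt
    rw [inv_le_comm₀ hlam0 (by positivity), hlam, ← one_div,
      div_le_div_iff₀ (by positivity) (by positivity)]
    have h5 : (1 : ℝ) ≤ h * h := by nlinarith
    have h6 : (1 : ℝ) ≤ Q * D := by nlinarith
    have h8 : (L : ℝ) ^ 2 * L ≤ (16 * n) * (4 * (M * K)) :=
      mul_le_mul hn1R hMK2R (by positivity) (by positivity)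
    have h9 : (1 : ℝ) ≤ (h * h) * (Q * D) := one_le_mul_of_one_le_of_one_le h5 h6
    have h10 : (L : ℝ) ^ 2 * L * 1 ≤ ((16 * n) * (4 * (M * K))) * ((h * h) * (Q * D)) :=
      mul_le_mul h8 h9 (by norm_num) (by positivity)
    calc 1 * (4 * (L : ℝ) ^ 3) = 4 * ((L : ℝ) ^ 2 * L * 1) := by ring
      _ ≤ 4 * (((16 * n) * (4 * (M * K))) * ((h * h) * (Q * D))) :=
        mul_le_mul_of_nonneg_left h10 (by norm_num)
      _ = (h : ℝ) * n * D * M * (16 ^ 2 * ((h : ℝ) * Q * K)) := by ring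
  calc C * (((B : ℝ) - A) * √lam + (√lam)⁻¹) ≤ C * (√(h * Q * K) + 16 * √(h * Q * K)) := by gcongr
    _ = 17 * C * √(h * Q * K) := by ring

/-- a block of at most `Q` consecutive values of `m` -/
theorem block {L n h M K Q a : ℕ} {E : ℝ} {u v : ℕ → ℂ} (hu : ∀ m, ‖u m‖ ≤ 1)
    (hv : ∀ k, ‖v k‖ ≤ 1) (hE : 0 ≤ E) {β : Finset ℕ} (hβ : β ⊆ Ioc M (2 * M))
    (hβ2 : β ⊆ Ico a (a + Q))
    (hp : ∀ m m' : ℕ, M < m → m < m' → m' ≤ 2 * M → m' < m + Q →
      ‖∑ k ∈ (Ioc K (2 * K)).filter (fun k => PP L m k ∧ PP L m' k),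
        ex ((h * n : ℝ) / ((m : ℝ) * k - 1) - (h * n : ℝ) / ((m' : ℝ) * k - 1))‖ ≤ E) :
    ‖∑ m ∈ β, ∑ k ∈ (Ioc K (2 * K)).filter (fun k => PP L m k),
      u m * v k * ex ((h * n : ℝ) / ((m : ℝ) * k - 1))‖ ^ 2 ≤ K * (Q * (K + Q * E)) := by
  set g : ℕ → ℕ → ℝ := fun m k => (h * n : ℝ) / ((m : ℝ) * k - 1) with hg
  set c : ℕ → ℕ → ℂ := fun m k => if PP L m k then u m * ex (g m k) else 0 with hc
  set I := Ioc K (2 * K) with hI
  have hIc : I.card = K := by rw [hI, Nat.card_Ioc]; omega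
  have hcard : β.card ≤ Q := by
    have := Finset.card_le_card hβ2
    rwa [Nat.card_Ico, Nat.add_sub_cancel_left] at this
  have hcardR : (β.card : ℝ) ≤ Q := by exact_mod_cast hcard
  have h1 : ∑ m ∈ β, ∑ k ∈ I.filter (fun k => PP L m k), u m * v k * ex (g m k) =
      ∑ k ∈ I, v k * ∑ m ∈ β, c m k := by
    rw [Finset.sum_congr rfl fun m _ => Finset.sum_filter _ _, Finset.sum_comm]
    refine Finset.sum_congr rfl fun k _ => ?_
    rw [Finset.mul_sum]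
    refine Finset.sum_congr rfl fun m _ => ?_
    rw [hc]
    simp only
    split_ifs
    · ring
    · rw [mul_zero]
  have h2 : ‖∑ k ∈ I, v k * ∑ m ∈ β, c m k‖ ≤ ∑ k ∈ I, ‖∑ m ∈ β, c m k‖ := by
    refine (norm_sum_le _ _).trans (Finset.sum_le_sum fun k _ => ?_)
    rw [norm_mul]
    exact mul_le_of_le_one_left (norm_nonneg _) (hv k)
  have h3 : (∑ k ∈ I, ‖∑ m ∈ β, c m k‖) ^ 2 ≤ (K : ℝ) * ∑ k ∈ I, ‖∑ m ∈ β, c m k‖ ^ 2 := by
    have := sq_sum_le_card_mul_sum_sq (s := I) (f := fun k => ‖∑ m ∈ β, c m k‖)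
    rwa [hIc] at this
  -- the expansion of the square
  have h4 : ((∑ k ∈ I, ‖∑ m ∈ β, c m k‖ ^ 2 : ℝ) : ℂ) =
      ∑ m ∈ β, ∑ m' ∈ β, u m * (starRingEnd ℂ) (u m') *
        ∑ k ∈ I.filter (fun k => PP L m k ∧ PP L m' k), ex (g m k - g m' k) := by
    push_cast
    have h5 : ∀ k, ((‖∑ m ∈ β, c m k‖ : ℝ) : ℂ) ^ 2 =
        ∑ m ∈ β, ∑ m' ∈ β, c m k * (starRingEnd ℂ) (c m' k) := by
      intro k
      rw [← Complex.mul_conj', map_sum, Finset.sum_mul_sum]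
    rw [Finset.sum_congr rfl fun k _ => h5 k, Finset.sum_comm]
    refine Finset.sum_congr rfl fun m _ => ?_
    rw [Finset.sum_comm]
    refine Finset.sum_congr rfl fun m' _ => ?_
    rw [Finset.sum_filter, Finset.mul_sum]
    refine Finset.sum_congr rfl fun k _ => ?_
    rw [hc]
    simp only
    by_cases h6 : PP L m k <;> by_cases h7 : PP L m' k
    · rw [if_pos h6, if_pos h7, if_pos ⟨h6, h7⟩, map_mul, ← ex_mul_conj]
      ring
    · rw [if_neg h7, if_neg (fun h8 : PP L m k ∧ PP L m' k => h7 h8.2), map_zero, mul_zero, mul_zero]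
    · rw [if_neg h6, if_neg (fun h8 : PP L m k ∧ PP L m' k => h6 h8.1), zero_mul, mul_zero]
    · rw [if_neg h6, if_neg (fun h8 : PP L m k ∧ PP L m' k => h6 h8.1), zero_mul, mul_zero]
  have h5 : (∑ k ∈ I, ‖∑ m ∈ β, c m k‖ ^ 2 : ℝ) ≤ Q * (K + Q * E) := by
    have h0 : (0 : ℝ) ≤ ∑ k ∈ I, ‖∑ m ∈ β, c m k‖ ^ 2 := Finset.sum_nonneg fun _ _ => by positivity
    have h0' : ∑ k ∈ I, ‖∑ m ∈ β, c m k‖ ^ 2 =
        ‖((∑ k ∈ I, ‖∑ m ∈ β, c m k‖ ^ 2 : ℝ) : ℂ)‖ := by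
      rw [Complex.norm_real, Real.norm_of_nonneg h0]
    rw [h0', h4]
    refine (norm_sum_le _ _).trans ?_
    have h6 : ∀ m ∈ β, ‖∑ m' ∈ β, u m * (starRingEnd ℂ) (u m') *
        ∑ k ∈ I.filter (fun k => PP L m k ∧ PP L m' k), ex (g m k - g m' k)‖ ≤ K + Q * E := by
      intro m hm
      refine (norm_sum_le _ _).trans ?_
      have h7 : ∀ m' ∈ β, ‖u m * (starRingEnd ℂ) (u m') *
          ∑ k ∈ I.filter (fun k => PP L m k ∧ PP L m' k), ex (g m k - g m' k)‖ ≤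
          (if m' = m then (K : ℝ) else 0) + E := by
        intro m' hm'
        rw [norm_mul, norm_mul, RCLike.norm_conj]
        have h8 : ‖u m‖ * ‖u m'‖ ≤ 1 := mul_le_one₀ (hu m) (norm_nonneg _) (hu m')
        refine (mul_le_of_le_one_left (norm_nonneg _) h8).trans ?_
        have hm1 := Finset.mem_Ioc.1 (hβ hm)
        have hm2 := Finset.mem_Ioc.1 (hβ hm')
        have hm3 := Finset.mem_Ico.1 (hβ2 hm)
        have hm4 := Finset.mem_Ico.1 (hβ2 hm')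
        rcases lt_trichotomy m' m with h9 | h9 | h9
        · rw [if_neg h9.ne, zero_add]
          have h10 := hp m' m hm2.1 h9 hm1.2 (by omega)
          rw [norm_sum_swap] at h10
          refine le_trans (le_of_eq ?_) h10
          congr 1
          refine Finset.sum_congr ?_ fun k _ => rfl
          ext k
          rw [Finset.mem_filter, Finset.mem_filter]
          tauto
        · rw [if_pos h9, h9]
          have h10 : ‖∑ k ∈ I.filter (fun k => PP L m k ∧ PP L m k), ex (g m k - g m k)‖ ≤ K := by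
            refine (norm_sum_le _ _).trans ?_
            rw [Finset.sum_congr rfl fun k _ => norm_ex _, Finset.sum_const, nsmul_eq_mul, mul_one]
            have := Finset.card_filter_le I (fun k => PP L m k ∧ PP L m k)
            rw [hIc] at this
            exact_mod_cast this
          linarith
        · rw [if_neg h9.ne', zero_add]
          exact hp m m' hm1.1 h9 hm2.2 (by omega)
      refine (Finset.sum_le_sum h7).trans ?_
      rw [Finset.sum_add_distrib, Finset.sum_ite_eq' β m, if_pos hm, Finset.sum_const,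
        nsmul_eq_mul]
      have := mul_le_mul_of_nonneg_right hcardR hE
      linarith
    refine (Finset.sum_le_sum h6).trans ?_
    rw [Finset.sum_const, nsmul_eq_mul]
    exact mul_le_mul_of_nonneg_right hcardR (by positivity)
  rw [h1]
  calc ‖∑ k ∈ I, v k * ∑ m ∈ β, c m k‖ ^ 2 ≤ (∑ k ∈ I, ‖∑ m ∈ β, c m k‖) ^ 2 :=
        pow_le_pow_left₀ (norm_nonneg _) h2 2
    _ ≤ (K : ℝ) * ∑ k ∈ I, ‖∑ m ∈ β, c m k‖ ^ 2 := h3
    _ ≤ (K : ℝ) * (Q * (K + Q * E)) := mul_le_mul_of_nonneg_left h5 (Nat.cast_nonneg _)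

theorem s_TYII (hK : S_K2) : S_TYII := by
  obtain ⟨C, hC, hpair⟩ := pair hK
  refine ⟨4 * (1 + 2 * C), by positivity, ?_⟩
  intro L n h M K u v hu hv hL hn1 hn2 hh hhK hM hMK hMK1 hMK2
  have hK1 : 1 ≤ K := hM.trans hMK
  have hLR : (1 : ℝ) ≤ L := by exact_mod_cast hL
  have hhR : (1 : ℝ) ≤ h := by exact_mod_cast hh
  have hMR : (1 : ℝ) ≤ M := by exact_mod_cast hM
  have hKR : (1 : ℝ) ≤ K := by exact_mod_cast hK1
  have hhKR : (h : ℝ) ≤ K := by exact_mod_cast hhK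
  have hMKR : (M : ℝ) * K ≤ 2 * L := by exact_mod_cast hMK1
  set X : ℝ := ((K : ℝ) / h) ^ (1 / 3 : ℝ) with hX
  have hKh : (1 : ℝ) ≤ K / h := by rwa [one_le_div (by positivity)]
  have hX1 : 1 ≤ X := Real.one_le_rpow hKh (by norm_num)
  have hX3 : X ^ 3 = K / h := by
    rw [hX, ← Real.rpow_natCast, ← Real.rpow_mul (by positivity)]
    norm_num
  set Z : ℝ := (M : ℝ) ^ (-(1 / 2) : ℝ) with hZ
  set Y : ℝ := ((h : ℝ) / K) ^ (1 / 6 : ℝ) with hY
  have hZ0 : 0 < Z := by positivity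
  have hY0 : 0 < Y := by positivity
  have hZ2 : Z ^ 2 = 1 / M := by
    rw [hZ, ← Real.rpow_natCast, ← Real.rpow_mul (by positivity)]
    norm_num
    rw [Real.rpow_neg_one]
  have hY2 : Y ^ 2 = 1 / X := by
    rw [hY, hX, ← Real.rpow_natCast, ← Real.rpow_mul (by positivity),
      show (K : ℝ) / h = ((h : ℝ) / K)⁻¹ by rw [inv_div], Real.inv_rpow (by positivity)]
    have h1 : 1 / (((h : ℝ) / K) ^ (1 / 3 : ℝ))⁻¹ = ((h : ℝ) / K) ^ (1 / 3 : ℝ) := by
      rw [one_div, inv_inv]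
    rw [h1]
    norm_num
  set Q : ℕ := min M ⌈X⌉₊ with hQ
  have hceil1 : 1 ≤ ⌈X⌉₊ := Nat.one_le_iff_ne_zero.2 (by
    rw [Ne, Nat.ceil_eq_zero]; linarith)
  have hQ1 : 1 ≤ Q := le_min hM hceil1
  have hQM : Q ≤ M := min_le_left _ _
  have hQR : (1 : ℝ) ≤ Q := by exact_mod_cast hQ1
  have hQMR : (Q : ℝ) ≤ M := by exact_mod_cast hQM
  have hQX : (Q : ℝ) ≤ 2 * X := by
    have h1 : (Q : ℝ) ≤ ⌈X⌉₊ := by exact_mod_cast min_le_right M ⌈X⌉₊
    have h2 := Nat.ceil_lt_add_one (show 0 ≤ X by linarith)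
    linarith
  have hQinv : 1 / (Q : ℝ) ≤ Z ^ 2 + Y ^ 2 := by
    rw [hZ2, hY2]
    have h1 : Q = M ∨ Q = ⌈X⌉₊ := min_choice M ⌈X⌉₊
    rcases h1 with h1 | h1
    · rw [h1]
      have : (0 : ℝ) < 1 / X := by positivity
      linarith
    · have h2 : X ≤ Q := by rw [h1]; exact Nat.le_ceil X
      have h3 : 1 / (Q : ℝ) ≤ 1 / X := one_div_le_one_div_of_le (by linarith) h2
      have : (0 : ℝ) < 1 / M := by positivity
      linarith
  set E : ℝ := C * √(h * Q * K) with hE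
  have hE0 : 0 ≤ E := by positivity
  have hEK : E ≤ C * (2 * Y ^ 2 * K) := by
    refine mul_le_mul_of_nonneg_left ?_ hC.le
    rw [Real.sqrt_le_left (by positivity), hY2]
    have h1 : (h : ℝ) * X ^ 3 = K := by rw [hX3]; field_simp
    have h2 : (2 * (1 / X) * (K : ℝ)) ^ 2 = 4 * (K / X ^ 2) * K := by field_simp; ring
    rw [h2]
    have h3 : (h : ℝ) * Q ≤ 4 * (K / X ^ 2) := by
      rw [← mul_div_assoc, le_div_iff₀ (by positivity)]
      calc (h : ℝ) * Q * X ^ 2 ≤ (h : ℝ) * (2 * X) * X ^ 2 := by gcongr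
        _ = 2 * ((h : ℝ) * X ^ 3) := by ring
        _ = 2 * K := by rw [h1]
        _ ≤ 4 * K := by linarith
    exact mul_le_mul_of_nonneg_right h3 (by positivity)
  set f : ℕ → ℂ := fun m => ∑ k ∈ (Ioc K (2 * K)).filter (fun k => PP L m k),
    u m * v k * ex ((h * n : ℝ) / ((m : ℝ) * k - 1)) with hf
  set R : ℝ := √(K * (Q * (K + Q * E))) with hR
  have hblock : ∀ j, ‖∑ m ∈ (Ioc M (2 * M)).filter (fun m => (m - M - 1) / Q = j), f m‖ ≤ R := by
    intro j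
    rw [hR]
    refine Real.le_sqrt_of_sq_le ?_
    refine block (a := M + 1 + j * Q) hu hv hE0 (Finset.filter_subset _ _) ?_
      (fun m m' h1 h2 h3 h4 => hpair L n h M K Q m m' hL hn1 hn2 hh hM hK1 hQ1 hMK1 hMK2 h1 h2 h3 h4)
    intro m hm
    rw [Finset.mem_filter, Finset.mem_Ioc] at hm
    obtain ⟨⟨h1, h2⟩, h3⟩ := hm
    have h4 := Nat.div_add_mod (m - M - 1) Q
    have h5 := Nat.mod_lt (m - M - 1) (show Q > 0 by omega)
    rw [h3, Nat.mul_comm] at h4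
    rw [Finset.mem_Ico]
    omega
  have hS : ∑ m ∈ Ioc M (2 * M), f m = ∑ j ∈ range (M / Q + 1),
      ∑ m ∈ (Ioc M (2 * M)).filter (fun m => (m - M - 1) / Q = j), f m := by
    refine (Finset.sum_fiberwise_of_maps_to ?_ _).symm
    intro m hm
    rw [Finset.mem_Ioc] at hm
    rw [Finset.mem_range]
    exact Nat.lt_succ_of_le (Nat.div_le_div_right (by omega))
  have hnorm : ‖∑ m ∈ Ioc M (2 * M), f m‖ ≤ 2 * M / Q * R := by
    rw [hS]
    refine (norm_sum_le _ _).trans ((Finset.sum_le_sum fun j _ => hblock j).trans ?_)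
    rw [Finset.sum_const, Finset.card_range, nsmul_eq_mul]
    refine mul_le_mul_of_nonneg_right ?_ (Real.sqrt_nonneg _)
    push_cast
    have h1 : ((M / Q : ℕ) : ℝ) ≤ M / Q := Nat.cast_div_le
    have h2 : (1 : ℝ) ≤ M / Q := by rwa [one_le_div (by positivity)]
    rw [mul_div_assoc]
    linarith
  have hgoal : ∑ m ∈ Ioc M (2 * M), ∑ k ∈ (Ioc K (2 * K)).filter
      (fun k => L < m * k ∧ m * k ≤ 2 * L), u m * v k * ex ((h * n : ℝ) / ((m : ℝ) * k - 1)) =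
      ∑ m ∈ Ioc M (2 * M), f m := by
    refine Finset.sum_congr rfl fun m _ => ?_
    rw [hf]
    refine Finset.sum_congr ?_ fun k _ => rfl
    ext k
    rw [Finset.mem_filter, Finset.mem_filter]
    rfl
  rw [hgoal]
  refine hnorm.trans ?_
  have hR0 : 0 ≤ R := Real.sqrt_nonneg _
  have hR2 : R ^ 2 = K * (Q * (K + Q * E)) := Real.sq_sqrt (by positivity)
  rw [← pow_le_pow_iff_left₀ (by positivity) (by positivity) two_ne_zero]
  have h1 : (2 * (M : ℝ) / Q * R) ^ 2 = 4 * ((M : ℝ) ^ 2 * K) * (K * (1 / Q) + E) := by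
    rw [mul_pow, hR2]
    field_simp
    ring
  rw [h1]
  have h2 : (K : ℝ) * (1 / Q) + E ≤ K * ((1 + 2 * C) * (Z + Y) ^ 2) := by
    have h3 : (K : ℝ) * (1 / Q) ≤ K * (Z ^ 2 + Y ^ 2) :=
      mul_le_mul_of_nonneg_left hQinv (by positivity)
    have h4 : (0 : ℝ) ≤ K * (2 * Z * Y + 2 * C * (Z ^ 2 + 2 * Z * Y)) := by positivity
    nlinarith
  calc 4 * ((M : ℝ) ^ 2 * K) * (K * (1 / Q) + E)
      ≤ 4 * ((M : ℝ) ^ 2 * K) * (K * ((1 + 2 * C) * (Z + Y) ^ 2)) :=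
        mul_le_mul_of_nonneg_left h2 (by positivity)
    _ = 4 * ((M : ℝ) * K) ^ 2 * ((1 + 2 * C) * (Z + Y) ^ 2) := by ring
    _ ≤ 4 * (2 * (L : ℝ)) ^ 2 * ((1 + 2 * C) ^ 2 * (Z + Y) ^ 2) := by
        have h5 : ((M : ℝ) * K) ^ 2 ≤ (2 * (L : ℝ)) ^ 2 := pow_le_pow_left₀ (by positivity) hMKR 2
        have h6 : (1 + 2 * C) ≤ (1 + 2 * C) ^ 2 := by nlinarith
        have h7 : (1 + 2 * C) * (Z + Y) ^ 2 ≤ (1 + 2 * C) ^ 2 * (Z + Y) ^ 2 :=
          mul_le_mul_of_nonneg_right h6 (by positivity)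
        exact mul_le_mul (by linarith) h7 (by positivity) (by positivity)
    _ = (4 * (1 + 2 * C) * L * (Z + Y)) ^ 2 := by ring

end Pool.Agent.L7h44.BP
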